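import Pool.Agent.U980.FL.Bessel

/-!
# The inequality for a family of representations of `GL_2`
-/

set_option autoImplicit false

namespace Pool.Agent.U980.FL

open Filter Topology

variable {P : Type*} {m : ℕ}

/-- the system `1, A_i, B_i = A_i² - A_i - 1` -/
def sys (A : Fin m → P × ℕ → ℝ) : Option (Fin m ⊕ Fin m) → P × ℕ → ℝ
  | none => fun _ => 1
  | some (Sum.inl i) => A i
  | some (Sum.inr i) => fun x => A i x ^ 2 - A i x - 1

variable {N : P → ℝ} {A : Fin m → P × ℕ → ℝ}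

theorem summable_PE (h0 : ∀ v, 2 ≤ N v) {σ : ℝ} (hs : Summable fun v => N v ^ (-σ)) (p : P → Prop)
    [DecidablePred p] : Summable fun v => if p v then N v ^ (-σ) else 0 := by
  refine Summable.of_nonneg_of_le (fun v => ?_) (fun v => ?_) hs
  · split_ifs
    · exact Real.rpow_nonneg (by linarith [h0 v]) _
    · exact le_rfl
  · split_ifs
    · exact le_rfl
    · exact Real.rpow_nonneg (by linarith [h0 v]) _

theorem PE_eq (E : Set P) (σ : ℝ) [inst : DecidablePred (· ∈ E)] :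
    PE N E σ = ∑' v, if v ∈ E then N v ^ (-σ) else 0 := by
  unfold PE
  refine tsum_congr fun v => ?_
  by_cases h : v ∈ E
  · rw [if_pos h, if_pos h]
  · rw [if_neg h, if_neg h]

theorem PE_nonneg (h0 : ∀ v, 2 ≤ N v) (E : Set P) (σ : ℝ) : 0 ≤ PE N E σ := by
  unfold PE
  refine tsum_nonneg fun v => ?_
  split_ifs
  · exact Real.rpow_nonneg (by linarith [h0 v]) _
  · exact le_rfl

theorem PE_mono (h0 : ∀ v, 2 ≤ N v) {σ : ℝ} (hs : Summable fun v => N v ^ (-σ)) {E F : Set P}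
    (hEF : E ⊆ F) : PE N E σ ≤ PE N F σ := by
  classical
  unfold PE
  refine Summable.tsum_le_tsum (fun v => ?_) (summable_PE h0 hs _) (summable_PE h0 hs _)
  by_cases h1 : v ∈ E
  · rw [if_pos h1, if_pos (hEF h1)]
  · rw [if_neg h1]
    split_ifs
    · exact Real.rpow_nonneg (by linarith [h0 v]) _
    · exact le_rfl

theorem main_ineq (h : Ortho N (sys A)) : ∃ C₀ : ℝ, 1 ≤ C₀ ∧ ∀ σ : ℝ, 1 < σ → σ ≤ 2 →
    ∀ (E : Set P) (T c : ℝ), 0 ≤ T + c →
    PE N E σ ^ 2 + ∑ i, (max 0 ((T + c) ^ 2 * PE N {v | v ∈ E ∧ T ≤ A i (v, 0)} σ -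
      (1 + c ^ 2) * PE N E σ)) ^ 2 / (1 + (1 + 2 * c) ^ 2) ≤ (LL N σ + C₀) * PE N E σ := by
  classical
  obtain ⟨C₀, hC, hq⟩ := quad h
  refine ⟨C₀, hC, fun σ h1 h2 E T c hTc => ?_⟩
  obtain ⟨hs, hb⟩ := bessel hC h hq h1 h2 E
  have hsN := h.summ σ h1
  have h0 : ∀ v, 0 ≤ N v ^ (-σ) := fun v => Real.rpow_nonneg (by linarith [h.two_le v]) _
  rw [Fintype.sum_option, Fintype.sum_sum_type] at hb
  have hnone : SE N (sys A none) E σ = PE N E σ := by
    unfold SE PE sys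
    simp only [one_mul]
  rw [hnone] at hb
  have hi : ∀ i, (max 0 ((T + c) ^ 2 * PE N {v | v ∈ E ∧ T ≤ A i (v, 0)} σ -
      (1 + c ^ 2) * PE N E σ)) ^ 2 / (1 + (1 + 2 * c) ^ 2) ≤
      SE N (sys A (some (Sum.inl i))) E σ ^ 2 + SE N (sys A (some (Sum.inr i))) E σ ^ 2 := by
    intro i
    set X := SE N (sys A (some (Sum.inl i))) E σ with hX
    set Y := SE N (sys A (some (Sum.inr i))) E σ with hY
    have hXs := hs (some (Sum.inl i))
    have hYs := hs (some (Sum.inr i))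
    have hPs : Summable fun v => if v ∈ E then N v ^ (-σ) else 0 := summable_PE h.two_le hsN _
    have hQs : Summable fun v => if v ∈ {v | v ∈ E ∧ T ≤ A i (v, 0)} then N v ^ (-σ) else 0 :=
      summable_PE h.two_le hsN _
    -- the pointwise inequality
    have key : (T + c) ^ 2 * PE N {v | v ∈ E ∧ T ≤ A i (v, 0)} σ ≤
        (1 + c ^ 2) * PE N E σ + ((1 + 2 * c) * X + Y) := by
      have e1 : (1 + c ^ 2) * PE N E σ + ((1 + 2 * c) * X + Y) =
          ∑' v, ((1 + c ^ 2) * (if v ∈ E then N v ^ (-σ) else 0) +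
            ((1 + 2 * c) * (if v ∈ E then sys A (some (Sum.inl i)) (v, 0) * N v ^ (-σ) else 0) +
              (if v ∈ E then sys A (some (Sum.inr i)) (v, 0) * N v ^ (-σ) else 0))) := by
        rw [Summable.tsum_add (hPs.mul_left _) ((hXs.mul_left _).add hYs),
          Summable.tsum_add (hXs.mul_left _) hYs, tsum_mul_left, tsum_mul_left]
        rfl
      have e2 : (T + c) ^ 2 * PE N {v | v ∈ E ∧ T ≤ A i (v, 0)} σ =
          ∑' v, (T + c) ^ 2 * (if v ∈ {v | v ∈ E ∧ T ≤ A i (v, 0)} then N v ^ (-σ) else 0) := by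
        rw [tsum_mul_left, ← PE_eq]
      rw [e1, e2]
      refine Summable.tsum_le_tsum (fun v => ?_) (hQs.mul_left _)
        ((hPs.mul_left _).add ((hXs.mul_left _).add hYs))
      by_cases hE : v ∈ E
      · simp only [hE, if_true, sys, Set.mem_ofPred_eq, true_and]
        have e3 : (1 + c ^ 2) * N v ^ (-σ) + ((1 + 2 * c) * (A i (v, 0) * N v ^ (-σ)) +
            (A i (v, 0) ^ 2 - A i (v, 0) - 1) * N v ^ (-σ)) = (A i (v, 0) + c) ^ 2 * N v ^ (-σ) := by ring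
        rw [e3]
        split_ifs with hT
        · apply mul_le_mul_of_nonneg_right _ (h0 v)
          have : T + c ≤ A i (v, 0) + c := by linarith
          gcongr
        · rw [mul_zero]
          exact mul_nonneg (sq_nonneg _) (h0 v)
      · simp [hE]
    have hD : 0 < 1 + (1 + 2 * c) ^ 2 := by positivity
    rw [div_le_iff₀ hD]
    have k1 : max 0 ((T + c) ^ 2 * PE N {v | v ∈ E ∧ T ≤ A i (v, 0)} σ - (1 + c ^ 2) * PE N E σ) ≤
        |(1 + 2 * c) * X + Y| :=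
      max_le (abs_nonneg _) ((by linarith : _ ≤ (1 + 2 * c) * X + Y).trans (le_abs_self _))
    calc _ ≤ |(1 + 2 * c) * X + Y| ^ 2 := by
          apply pow_le_pow_left₀ (le_max_left _ _) k1
      _ = ((1 + 2 * c) * X + Y) ^ 2 := sq_abs _
      _ ≤ _ := by nlinarith [sq_nonneg ((1 + 2 * c) * Y - X)]
  calc _ ≤ PE N E σ ^ 2 + ∑ i, (SE N (sys A (some (Sum.inl i))) E σ ^ 2 +
        SE N (sys A (some (Sum.inr i))) E σ ^ 2) := by
        gcongr with i
        exact hi i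
    _ ≤ _ := by
        rw [Finset.sum_add_distrib]
        exact hb

/-- all members are large on `E` -/
theorem all_large (h0 : ∀ v, 2 ≤ N v) {C₀ : ℝ} (hC : 1 ≤ C₀) {σ : ℝ} (E : Set P)
    (hE : ∀ v ∈ E, ∀ i, 3 ≤ A i (v, 0))
    (hm : ∀ T c : ℝ, 0 ≤ T + c →
      PE N E σ ^ 2 + ∑ i, (max 0 ((T + c) ^ 2 * PE N {v | v ∈ E ∧ T ≤ A i (v, 0)} σ -
      (1 + c ^ 2) * PE N E σ)) ^ 2 / (1 + (1 + 2 * c) ^ 2) ≤ (LL N σ + C₀) * PE N E σ) :
    (34 * m + 1) * PE N E σ ≤ LL N σ + C₀ := by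
  have hP := PE_nonneg h0 E σ
  have hL : 0 ≤ LL N σ := tsum_nonneg fun v => Real.rpow_nonneg (by linarith [h0 v]) _
  have h1 := hm 3 (-1 / 5) (by norm_num)
  have h2 : ∀ i, {v | v ∈ E ∧ (3 : ℝ) ≤ A i (v, 0)} = E := by
    intro i
    ext v
    exact ⟨fun h => h.1, fun h => ⟨h, hE v h i⟩⟩
  simp only [h2] at h1
  have h3 : ((3 : ℝ) + -1 / 5) ^ 2 * PE N E σ - (1 + (-1 / 5) ^ 2) * PE N E σ = 34 / 5 * PE N E σ := by ring
  rw [h3, max_eq_right (by positivity)] at h1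
  rw [Finset.sum_const, Finset.card_univ, Fintype.card_fin, nsmul_eq_mul] at h1
  rcases hP.eq_or_lt with h4 | h4
  · rw [← h4]
    linarith
  · have h5 : (34 * m + 1) * PE N E σ * PE N E σ ≤ (LL N σ + C₀) * PE N E σ := by
      refine le_trans (le_of_eq ?_) h1
      ring
    exact le_of_mul_le_mul_right h5 h4

theorem weighted (h0 : ∀ v, 2 ≤ N v) {C₀ : ℝ} (hC : 1 ≤ C₀) {σ : ℝ} (hs : Summable fun v => N v ^ (-σ))
    (F : Fin m → Set P) (hF : ∀ i, ∀ v ∈ F i, 3 ≤ A i (v, 0)) (w : Fin m → ℝ) (hw : ∀ i, 0 ≤ w i)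
    (hw1 : ∑ i, w i = 1) {ρ : ℝ} (hρ : 1 / 10 ≤ ρ) (E : Set P)
    (hE : ∀ v ∈ E, ρ ≤ ∑ i, Set.indicator (F i) (fun _ => w i) v)
    (hm : ∀ T c : ℝ, 0 ≤ T + c →
      PE N E σ ^ 2 + ∑ i, (max 0 ((T + c) ^ 2 * PE N {v | v ∈ E ∧ T ≤ A i (v, 0)} σ -
      (1 + c ^ 2) * PE N E σ)) ^ 2 / (1 + (1 + 2 * c) ^ 2) ≤ (LL N σ + C₀) * PE N E σ) :
    (153 * (∑ i, w i ^ 2) + 50 * (10 * ρ - 1) ^ 2) * PE N E σ ≤
      153 * (∑ i, w i ^ 2) * (LL N σ + C₀) := by
  classical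
  have hP := PE_nonneg h0 E σ
  have hL : 0 ≤ LL N σ := tsum_nonneg fun v => Real.rpow_nonneg (by linarith [h0 v]) _
  have hW : 0 ≤ ∑ i, w i ^ 2 := Finset.sum_nonneg fun i _ => sq_nonneg _
  have h1 := hm 3 (1 / 3) (by norm_num)
  set D : Fin m → ℝ := fun i => max 0 (((3 : ℝ) + 1 / 3) ^ 2 * PE N {v | v ∈ E ∧ (3 : ℝ) ≤ A i (v, 0)} σ -
    (1 + (1 / 3) ^ 2) * PE N E σ) with hD
  have h2 : PE N E σ ^ 2 + (9 / 34) * ∑ i, D i ^ 2 ≤ (LL N σ + C₀) * PE N E σ := by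
    refine le_trans (le_of_eq ?_) h1
    rw [Finset.mul_sum]
    congr 1
    refine Finset.sum_congr rfl fun i _ => ?_
    simp only [hD]
    ring
  -- the weighted sum
  have h3 : ρ * PE N E σ ≤ ∑ i, w i * PE N {v | v ∈ E ∧ (3 : ℝ) ≤ A i (v, 0)} σ := by
    have e1 : ∑ i, w i * PE N {v | v ∈ E ∧ (3 : ℝ) ≤ A i (v, 0)} σ =
        ∑' v, ∑ i, w i * (if v ∈ {v | v ∈ E ∧ (3 : ℝ) ≤ A i (v, 0)} then N v ^ (-σ) else 0) := by
      rw [Summable.tsum_finsetSum (fun i _ => (summable_PE h0 hs _).mul_left _)]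
      refine Finset.sum_congr rfl fun i _ => ?_
      rw [tsum_mul_left, ← PE_eq]
    have e2 : ρ * PE N E σ = ∑' v, ρ * (if v ∈ E then N v ^ (-σ) else 0) := by
      rw [tsum_mul_left]
      rfl
    rw [e1, e2]
    refine Summable.tsum_le_tsum (fun v => ?_) ((summable_PE h0 hs _).mul_left _)
      (summable_sum fun i _ => (summable_PE h0 hs _).mul_left _)
    have hv : 0 ≤ N v ^ (-σ) := Real.rpow_nonneg (by linarith [h0 v]) _
    by_cases hvE : v ∈ E
    · rw [if_pos hvE]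
      calc ρ * N v ^ (-σ) ≤ (∑ i, Set.indicator (F i) (fun _ => w i) v) * N v ^ (-σ) :=
            mul_le_mul_of_nonneg_right (hE v hvE) hv
        _ = ∑ i, Set.indicator (F i) (fun _ => w i) v * N v ^ (-σ) := Finset.sum_mul _ _ _
        _ ≤ _ := by
            refine Finset.sum_le_sum fun i _ => ?_
            by_cases hvi : v ∈ F i
            · rw [Set.indicator_of_mem hvi, if_pos ⟨hvE, hF i v hvi⟩]
            · rw [Set.indicator_of_notMem hvi, zero_mul]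
              refine mul_nonneg (hw i) ?_
              split_ifs
              · exact hv
              · exact le_rfl
    · rw [if_neg hvE, mul_zero]
      refine Finset.sum_nonneg fun i _ => mul_nonneg (hw i) ?_
      split_ifs
      · exact hv
      · exact le_rfl
  have h4 : 10 / 9 * (10 * ρ - 1) * PE N E σ ≤ ∑ i, w i * D i := by
    have e1 : ∀ i, w i * ((100 / 9) * PE N {v | v ∈ E ∧ (3 : ℝ) ≤ A i (v, 0)} σ - (10 / 9) * PE N E σ) ≤
        w i * D i := by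
      intro i
      apply mul_le_mul_of_nonneg_left _ (hw i)
      simp only [hD]
      refine le_trans (le_of_eq ?_) (le_max_right _ _)
      ring
    calc 10 / 9 * (10 * ρ - 1) * PE N E σ = (100 / 9) * (ρ * PE N E σ) - (10 / 9) * PE N E σ * 1 := by ring
      _ ≤ (100 / 9) * (∑ i, w i * PE N {v | v ∈ E ∧ (3 : ℝ) ≤ A i (v, 0)} σ) -
          (10 / 9) * PE N E σ * ∑ i, w i := by
          rw [hw1]
          linarith
      _ = ∑ i, w i * ((100 / 9) * PE N {v | v ∈ E ∧ (3 : ℝ) ≤ A i (v, 0)} σ - (10 / 9) * PE N E σ) := by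
          rw [Finset.mul_sum, Finset.mul_sum, ← Finset.sum_sub_distrib]
          refine Finset.sum_congr rfl fun i _ => by ring
      _ ≤ _ := Finset.sum_le_sum fun i _ => e1 i
  have h5 : (∑ i, w i * D i) ^ 2 ≤ (∑ i, w i ^ 2) * ∑ i, D i ^ 2 :=
    Finset.sum_mul_sq_le_sq_mul_sq Finset.univ w D
  have h6 : (10 / 9 * (10 * ρ - 1) * PE N E σ) ^ 2 ≤ (∑ i, w i ^ 2) * ∑ i, D i ^ 2 := by
    refine le_trans ?_ h5
    apply pow_le_pow_left₀ _ h4
    have : 0 ≤ 10 * ρ - 1 := by linarith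
    positivity
  rcases hP.eq_or_lt with h7 | h7
  · rw [← h7, mul_zero]
    positivity
  · have h8 : (153 * (∑ i, w i ^ 2) + 50 * (10 * ρ - 1) ^ 2) * PE N E σ * PE N E σ ≤
      153 * (∑ i, w i ^ 2) * (LL N σ + C₀) * PE N E σ := by
      have h9 := mul_le_mul_of_nonneg_left h2 hW
      nlinarith
    exact le_of_mul_le_mul_right h8 h7

end Pool.Agent.U980.FL
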