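import Mathlib

/-!
# A Bessel inequality for Dirichlet series over a set of places
-/

set_option autoImplicit false

namespace Pool.Agent.U980.FL

open Filter Topology

variable {P J : Type*} [Fintype J] [DecidableEq J]

/-- the weights `N(v)^{-kσ} / k`, `k = x.2 + 1` -/
noncomputable def wt (N : P → ℝ) (σ : ℝ) (x : P × ℕ) : ℝ :=
  N x.1 ^ (-(((x.2 : ℝ) + 1) * σ)) / ((x.2 : ℝ) + 1)

/-- an asymptotically orthonormal system -/
structure Ortho (N : P → ℝ) (χ : J → P × ℕ → ℝ) : Prop where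
  two_le : ∀ v, 2 ≤ N v
  summ : ∀ σ : ℝ, 1 < σ → Summable fun v => N v ^ (-σ)
  sm : ∀ j j' (σ : ℝ), 1 < σ → Summable fun x => (χ j x * χ j' x - if j = j' then 1 else 0) * wt N σ x
  bdd : ∃ C : ℝ, ∀ j j' (σ : ℝ), 1 < σ → σ ≤ 2 →
    |∑' x, (χ j x * χ j' x - if j = j' then 1 else 0) * wt N σ x| ≤ C

/-- `∑_v N(v)^{-σ}` -/
noncomputable def LL (N : P → ℝ) (σ : ℝ) : ℝ := ∑' v, N v ^ (-σ)

open scoped Classical in
/-- `∑_{v ∈ E} N(v)^{-σ}` -/
noncomputable def PE (N : P → ℝ) (E : Set P) (σ : ℝ) : ℝ := ∑' v, if v ∈ E then N v ^ (-σ) else 0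

open scoped Classical in
/-- `∑_{v ∈ E} χ(v) N(v)^{-σ}` -/
noncomputable def SE (N : P → ℝ) (χ : P × ℕ → ℝ) (E : Set P) (σ : ℝ) : ℝ :=
  ∑' v, if v ∈ E then χ (v, 0) * N v ^ (-σ) else 0

variable {N : P → ℝ} {χ : J → P × ℕ → ℝ}

theorem wt_nonneg (hN : ∀ v, 2 ≤ N v) (σ : ℝ) (x : P × ℕ) : 0 ≤ wt N σ x := by
  unfold wt
  have := hN x.1
  have h1 : 0 ≤ N x.1 := by linarith
  positivity

theorem wt_zero (σ : ℝ) (v : P) : wt N σ (v, 0) = N v ^ (-σ) := by
  unfold wt
  simp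

theorem wt_le (hN : ∀ v, 2 ≤ N v) {σ : ℝ} (hσ : 1 < σ) (v : P) (k : ℕ) :
    wt N σ (v, k) ≤ N v ^ (-σ) * (1 / 2) ^ k := by
  have h2 := hN v
  have h0 : 0 < N v := by linarith
  unfold wt
  simp only
  have h1 : N v ^ (-(((k : ℝ) + 1) * σ)) = N v ^ (-σ) * (N v ^ (-σ)) ^ k := by
    rw [← Real.rpow_natCast, ← Real.rpow_mul h0.le, ← Real.rpow_add h0]
    congr 1
    ring
  rw [h1]
  have h3 : N v ^ (-σ) ≤ 1 / 2 := by
    calc N v ^ (-σ) ≤ 2 ^ (-σ) := Real.rpow_le_rpow_of_nonpos (by norm_num) h2 (by linarith)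
      _ ≤ 2 ^ (-(1 : ℝ)) := Real.rpow_le_rpow_of_exponent_le (by norm_num) (by linarith)
      _ = 1 / 2 := by
        rw [Real.rpow_neg (by norm_num), Real.rpow_one]
        norm_num
  have h4 : 0 ≤ N v ^ (-σ) := Real.rpow_nonneg h0.le _
  calc N v ^ (-σ) * (N v ^ (-σ)) ^ k / ((k : ℝ) + 1) ≤ N v ^ (-σ) * (N v ^ (-σ)) ^ k := by
        apply div_le_self (by positivity)
        have : (0 : ℝ) ≤ k := Nat.cast_nonneg k
        linarith
    _ ≤ N v ^ (-σ) * (1 / 2) ^ k := by gcongr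

theorem summable_wt (hN : ∀ v, 2 ≤ N v) {σ : ℝ} (hσ : 1 < σ) (hs : Summable fun v => N v ^ (-σ)) :
    Summable fun x => wt N σ x := by
  have h1 : Summable fun x : P × ℕ => N x.1 ^ (-σ) * (1 / 2 : ℝ) ^ x.2 :=
    hs.mul_of_nonneg (summable_geometric_of_lt_one (by norm_num) (by norm_num))
      (fun v => Real.rpow_nonneg (by linarith [hN v]) _) (fun k => by positivity)
  exact Summable.of_nonneg_of_le (wt_nonneg hN σ) (fun x => wt_le hN hσ x.1 x.2) h1

theorem tsum_wt_le (hN : ∀ v, 2 ≤ N v) {σ : ℝ} (hσ : 1 < σ) (hs : Summable fun v => N v ^ (-σ))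
    (hs2 : Summable fun v => N v ^ (-(2 : ℝ))) :
    ∑' x, wt N σ x ≤ LL N σ + 2 * LL N 2 := by
  have hsm := summable_wt hN hσ hs
  have h0 : ∀ v, 0 < N v := fun v => by linarith [hN v]
  -- the tail for a given place
  have key : ∀ v, ∑' k, wt N σ (v, k) ≤ N v ^ (-σ) + 2 * N v ^ (-(2 : ℝ)) := by
    intro v
    have hv : Summable fun k => wt N σ (v, k) := hsm.prod_factor v
    rw [hv.tsum_eq_zero_add, wt_zero]
    have h1 : ∀ k, wt N σ (v, k + 1) ≤ N v ^ (-(2 : ℝ)) * (1 / 2) ^ k := by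
      intro k
      have h2 := hN v
      unfold wt
      simp only
      have e1 : N v ^ (-((((k + 1 : ℕ) : ℝ) + 1) * σ)) ≤ N v ^ (-((k : ℝ) + 2)) := by
        apply Real.rpow_le_rpow_of_exponent_le (by linarith)
        push_cast
        have : (0 : ℝ) ≤ k := Nat.cast_nonneg k
        nlinarith
      have e2 : N v ^ (-((k : ℝ) + 2)) = N v ^ (-(2 : ℝ)) * (N v ^ (-(1 : ℝ))) ^ k := by
        rw [← Real.rpow_natCast, ← Real.rpow_mul (h0 v).le, ← Real.rpow_add (h0 v)]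
        congr 1
        ring
      have e3 : N v ^ (-(1 : ℝ)) ≤ 1 / 2 := by
        rw [Real.rpow_neg (h0 v).le, Real.rpow_one, ← one_div]
        apply one_div_le_one_div_of_le <;> linarith
      have e4 : 0 ≤ N v ^ (-(1 : ℝ)) := Real.rpow_nonneg (h0 v).le _
      have e5 : 0 ≤ N v ^ (-(2 : ℝ)) := Real.rpow_nonneg (h0 v).le _
      calc N v ^ (-((((k + 1 : ℕ) : ℝ) + 1) * σ)) / (((k + 1 : ℕ) : ℝ) + 1) ≤
            N v ^ (-((((k + 1 : ℕ) : ℝ) + 1) * σ)) := by
            apply div_le_self (Real.rpow_nonneg (h0 v).le _)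
            have : (0 : ℝ) ≤ ((k + 1 : ℕ) : ℝ) := Nat.cast_nonneg _
            linarith
        _ ≤ N v ^ (-(2 : ℝ)) * (N v ^ (-(1 : ℝ))) ^ k := e1.trans e2.le
        _ ≤ N v ^ (-(2 : ℝ)) * (1 / 2) ^ k := by gcongr
    have h3 : Summable fun k : ℕ => N v ^ (-(2 : ℝ)) * (1 / 2 : ℝ) ^ k :=
      (summable_geometric_of_lt_one (by norm_num) (by norm_num)).mul_left _
    have h4 : ∑' k, wt N σ (v, k + 1) ≤ ∑' k : ℕ, N v ^ (-(2 : ℝ)) * (1 / 2 : ℝ) ^ k :=
      Summable.tsum_le_tsum h1 ((summable_nat_add_iff 1).2 hv) h3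
    rw [tsum_mul_left, tsum_geometric_of_lt_one (by norm_num) (by norm_num)] at h4
    have h5 : N v ^ (-(2 : ℝ)) * (1 - 1 / 2)⁻¹ = 2 * N v ^ (-(2 : ℝ)) := by norm_num; ring
    rw [h5] at h4
    linarith
  have h6 := hsm.tsum_prod
  rw [h6]
  have h7 : Summable fun v => ∑' k, wt N σ (v, k) := hsm.prod
  have h8 : Summable fun v => N v ^ (-σ) + 2 * N v ^ (-(2 : ℝ)) := hs.add (hs2.mul_left 2)
  calc ∑' v, ∑' k, wt N σ (v, k) ≤ ∑' v, (N v ^ (-σ) + 2 * N v ^ (-(2 : ℝ))) :=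
        Summable.tsum_le_tsum key h7 h8
    _ = LL N σ + 2 * LL N 2 := by
        rw [hs.tsum_add (hs2.mul_left 2), tsum_mul_left]
        rfl

theorem sq_expand (c : J → ℝ) (x : P × ℕ) :
    (∑ j, c j * χ j x) ^ 2 - ∑ j, c j ^ 2 =
      ∑ j, ∑ j', c j * c j' * (χ j x * χ j' x - if j = j' then 1 else 0) := by
  have h1 : (∑ j, c j * χ j x) ^ 2 = ∑ j, ∑ j', c j * c j' * (χ j x * χ j' x) := by
    rw [sq, Finset.sum_mul_sum]
    refine Finset.sum_congr rfl fun j _ => Finset.sum_congr rfl fun j' _ => ?_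
    ring
  have h2 : ∑ j, c j ^ 2 = ∑ j, ∑ j', c j * c j' * (if j = j' then 1 else 0) := by
    refine Finset.sum_congr rfl fun j _ => ?_
    rw [Finset.sum_eq_single j]
    · simp [sq]
    · intro b _ hb
      rw [if_neg (Ne.symm hb), mul_zero]
    · intro h
      exact absurd (Finset.mem_univ j) h
  rw [h1, h2, ← Finset.sum_sub_distrib]
  refine Finset.sum_congr rfl fun j _ => ?_
  rw [← Finset.sum_sub_distrib]
  refine Finset.sum_congr rfl fun j' _ => ?_
  ring

/-- the quadratic form is bounded -/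
theorem quad (h : Ortho N χ) : ∃ C₀ : ℝ, 1 ≤ C₀ ∧ ∀ σ : ℝ, 1 < σ → σ ≤ 2 → ∀ c : J → ℝ,
    (Summable fun v => (∑ j, c j * χ j (v, 0)) ^ 2 * N v ^ (-σ)) ∧
    ∑' v, (∑ j, c j * χ j (v, 0)) ^ 2 * N v ^ (-σ) ≤ (LL N σ + C₀) * ∑ j, c j ^ 2 := by
  obtain ⟨C, hC⟩ := h.bdd
  refine ⟨max 1 (2 * LL N 2 + |C| * Fintype.card J), le_max_left _ _, fun σ hσ hσ2 c => ?_⟩
  have hwt := summable_wt h.two_le hσ (h.summ σ hσ)
  -- the sum over all prime powers
  have hterm : ∀ j j', Summable fun x => c j * c j' * ((χ j x * χ j' x - if j = j' then 1 else 0) * wt N σ x) :=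
    fun j j' => (h.sm j j' σ hσ).mul_left _
  have hsum1 : Summable fun x => ((∑ j, c j * χ j x) ^ 2 - ∑ j, c j ^ 2) * wt N σ x := by
    have : (fun x => ((∑ j, c j * χ j x) ^ 2 - ∑ j, c j ^ 2) * wt N σ x) =
        fun x => ∑ j, ∑ j', c j * c j' * ((χ j x * χ j' x - if j = j' then 1 else 0) * wt N σ x) := by
      funext x
      rw [sq_expand, Finset.sum_mul]
      refine Finset.sum_congr rfl fun j _ => ?_
      rw [Finset.sum_mul]
      refine Finset.sum_congr rfl fun j' _ => ?_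
      ring
    rw [this]
    exact summable_sum fun j _ => summable_sum fun j' _ => hterm j j'
  have hval : ∑' x, ((∑ j, c j * χ j x) ^ 2 - ∑ j, c j ^ 2) * wt N σ x =
      ∑ j, ∑ j', c j * c j' * ∑' x, (χ j x * χ j' x - if j = j' then 1 else 0) * wt N σ x := by
    have : (fun x => ((∑ j, c j * χ j x) ^ 2 - ∑ j, c j ^ 2) * wt N σ x) =
        fun x => ∑ j, ∑ j', c j * c j' * ((χ j x * χ j' x - if j = j' then 1 else 0) * wt N σ x) := by
      funext x
      rw [sq_expand, Finset.sum_mul]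
      refine Finset.sum_congr rfl fun j _ => ?_
      rw [Finset.sum_mul]
      refine Finset.sum_congr rfl fun j' _ => ?_
      ring
    rw [this, Summable.tsum_finsetSum (fun j _ => summable_sum fun j' _ => hterm j j')]
    refine Finset.sum_congr rfl fun j _ => ?_
    rw [Summable.tsum_finsetSum (fun j' _ => hterm j j')]
    refine Finset.sum_congr rfl fun j' _ => ?_
    rw [tsum_mul_left]
  have hbd : ∑' x, ((∑ j, c j * χ j x) ^ 2 - ∑ j, c j ^ 2) * wt N σ x ≤
      |C| * Fintype.card J * ∑ j, c j ^ 2 := by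
    rw [hval]
    have h1 : ∀ j j', c j * c j' * ∑' x, (χ j x * χ j' x - if j = j' then 1 else 0) * wt N σ x ≤
        |c j| * |c j'| * |C| := by
      intro j j'
      have h2 := (hC j j' σ hσ hσ2).trans (le_abs_self C)
      calc _ ≤ |c j * c j' * ∑' x, (χ j x * χ j' x - if j = j' then 1 else 0) * wt N σ x| := le_abs_self _
        _ = |c j| * |c j'| * |∑' x, (χ j x * χ j' x - if j = j' then 1 else 0) * wt N σ x| := by
            rw [abs_mul, abs_mul]
        _ ≤ |c j| * |c j'| * |C| := by gcongr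
    calc _ ≤ ∑ j, ∑ j', |c j| * |c j'| * |C| :=
          Finset.sum_le_sum fun j _ => Finset.sum_le_sum fun j' _ => h1 j j'
      _ = |C| * (∑ j, |c j|) ^ 2 := by
          rw [sq, Finset.sum_mul_sum, Finset.mul_sum]
          refine Finset.sum_congr rfl fun j _ => ?_
          rw [Finset.mul_sum]
          refine Finset.sum_congr rfl fun j' _ => ?_
          ring
      _ ≤ |C| * (Fintype.card J * ∑ j, |c j| ^ 2) := by
          gcongr
          have := sq_sum_le_card_mul_sum_sq (s := Finset.univ) (f := fun j => |c j|)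
          simpa using this
      _ = _ := by
          simp only [sq_abs]
          ring
  have hsum2 : Summable fun x => (∑ j, c j * χ j x) ^ 2 * wt N σ x := by
    have h1 := hsum1.add (hwt.mul_left (∑ j, c j ^ 2))
    refine h1.congr fun x => ?_
    ring
  have hval2 : ∑' x, (∑ j, c j * χ j x) ^ 2 * wt N σ x =
      (∑' x, ((∑ j, c j * χ j x) ^ 2 - ∑ j, c j ^ 2) * wt N σ x) + (∑ j, c j ^ 2) * ∑' x, wt N σ x := by
    rw [← tsum_mul_left, ← hsum1.tsum_add (hwt.mul_left (∑ j, c j ^ 2))]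
    refine tsum_congr fun x => ?_
    ring
  have hinj : Function.Injective fun v : P => (v, 0) := fun v w hvw => by simpa using hvw
  have hs0 : Summable fun v => (∑ j, c j * χ j (v, 0)) ^ 2 * N v ^ (-σ) := by
    have := hsum2.comp_injective hinj
    refine this.congr fun v => ?_
    simp only [Function.comp_apply, wt_zero]
  refine ⟨hs0, ?_⟩
  have h3 : ∑' v, (∑ j, c j * χ j (v, 0)) ^ 2 * N v ^ (-σ) ≤ ∑' x, (∑ j, c j * χ j x) ^ 2 * wt N σ x := by
    have h4 := tsum_comp_le_tsum_of_inj hsum2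
      (fun x => mul_nonneg (sq_nonneg _) (wt_nonneg h.two_le σ x)) hinj
    refine le_trans (le_of_eq ?_) h4
    refine tsum_congr fun v => ?_
    simp only [Function.comp_apply, wt_zero]
  have h5 := tsum_wt_le h.two_le hσ (h.summ σ hσ) (h.summ 2 (by norm_num))
  have h6 : 0 ≤ ∑ j, c j ^ 2 := Finset.sum_nonneg fun j _ => sq_nonneg _
  calc _ ≤ |C| * Fintype.card J * ∑ j, c j ^ 2 + (∑ j, c j ^ 2) * (LL N σ + 2 * LL N 2) := by
        rw [hval2] at h3
        have := mul_le_mul_of_nonneg_left h5 h6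
        linarith
    _ = (LL N σ + (2 * LL N 2 + |C| * Fintype.card J)) * ∑ j, c j ^ 2 := by ring
    _ ≤ _ := by
        gcongr
        exact le_max_right _ _

open scoped Classical in
theorem bessel {C₀ : ℝ} (hC : 1 ≤ C₀) (h : Ortho N χ)
    (hq : ∀ σ : ℝ, 1 < σ → σ ≤ 2 → ∀ c : J → ℝ,
      (Summable fun v => (∑ j, c j * χ j (v, 0)) ^ 2 * N v ^ (-σ)) ∧
      ∑' v, (∑ j, c j * χ j (v, 0)) ^ 2 * N v ^ (-σ) ≤ (LL N σ + C₀) * ∑ j, c j ^ 2)
    {σ : ℝ} (h1 : 1 < σ) (h2 : σ ≤ 2) (E : Set P) :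
    (∀ j, Summable fun v => if v ∈ E then χ j (v, 0) * N v ^ (-σ) else 0) ∧
    ∑ j, SE N (χ j) E σ ^ 2 ≤ (LL N σ + C₀) * PE N E σ := by
  have h0 : ∀ v, 0 ≤ N v ^ (-σ) := fun v => Real.rpow_nonneg (by linarith [h.two_le v]) _
  have hs := h.summ σ h1
  have hLL : 0 ≤ LL N σ := tsum_nonneg h0
  have hsq : ∀ j, Summable fun v => χ j (v, 0) ^ 2 * N v ^ (-σ) := by
    intro j
    have := (hq σ h1 h2 (Pi.single j 1)).1
    refine this.congr fun v => ?_
    congr 2
    rw [Finset.sum_eq_single j]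
    · simp
    · intro b _ hb
      simp [Pi.single_eq_of_ne hb]
    · intro hj
      exact absurd (Finset.mem_univ j) hj
  have hsE : ∀ j, Summable fun v => if v ∈ E then χ j (v, 0) * N v ^ (-σ) else 0 := by
    intro j
    have hb : Summable fun v => (1 + χ j (v, 0) ^ 2) * N v ^ (-σ) := by
      have := hs.add (hsq j)
      refine this.congr fun v => ?_
      ring
    refine Summable.of_norm_bounded hb fun v => ?_
    rw [Real.norm_eq_abs]
    have h3 : |χ j (v, 0)| ≤ 1 + χ j (v, 0) ^ 2 := by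
      rw [← sq_abs]
      nlinarith [abs_nonneg (χ j (v, 0))]
    split_ifs
    · rw [abs_mul, abs_of_nonneg (h0 v)]
      exact mul_le_mul_of_nonneg_right h3 (h0 v)
    · rw [abs_zero]
      exact mul_nonneg (by positivity) (h0 v)
  have hPE : Summable fun v => if v ∈ E then N v ^ (-σ) else 0 := by
    refine Summable.of_nonneg_of_le (fun v => ?_) (fun v => ?_) hs
    · split_ifs
      · exact h0 v
      · exact le_rfl
    · split_ifs
      · exact le_rfl
      · exact h0 v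
  refine ⟨hsE, ?_⟩
  set M : ℝ := LL N σ + C₀ with hM
  have hMpos : 0 < M := by linarith
  set c : J → ℝ := fun j => SE N (χ j) E σ with hc
  obtain ⟨q1, q2⟩ := hq σ h1 h2 c
  -- the expansion of the square
  have hcross : Summable fun v => if v ∈ E then (∑ j, c j * χ j (v, 0)) * N v ^ (-σ) else 0 := by
    have h3 : Summable fun v => ∑ j, c j * (if v ∈ E then χ j (v, 0) * N v ^ (-σ) else 0) :=
      summable_sum fun j _ => (hsE j).mul_left _
    refine h3.congr fun v => ?_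
    split_ifs
    · rw [Finset.sum_mul]
      refine Finset.sum_congr rfl fun j _ => by ring
    · simp
  have hcv : ∑' v, (if v ∈ E then (∑ j, c j * χ j (v, 0)) * N v ^ (-σ) else 0) = ∑ j, c j ^ 2 := by
    have e1 : (fun v => if v ∈ E then (∑ j, c j * χ j (v, 0)) * N v ^ (-σ) else 0) =
        fun v => ∑ j, c j * (if v ∈ E then χ j (v, 0) * N v ^ (-σ) else 0) := by
      funext v
      split_ifs
      · rw [Finset.sum_mul]
        refine Finset.sum_congr rfl fun j _ => by ring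
      · simp
    rw [e1, Summable.tsum_finsetSum (fun j _ => (hsE j).mul_left _)]
    refine Finset.sum_congr rfl fun j _ => ?_
    rw [tsum_mul_left, sq]
    rfl
  have hpos : 0 ≤ ∑' v, (M ^ 2 * (if v ∈ E then N v ^ (-σ) else 0) -
      2 * M * (if v ∈ E then (∑ j, c j * χ j (v, 0)) * N v ^ (-σ) else 0) +
      (∑ j, c j * χ j (v, 0)) ^ 2 * N v ^ (-σ)) := by
    refine tsum_nonneg fun v => ?_
    split_ifs
    · have : M ^ 2 * N v ^ (-σ) - 2 * M * ((∑ j, c j * χ j (v, 0)) * N v ^ (-σ)) +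
        (∑ j, c j * χ j (v, 0)) ^ 2 * N v ^ (-σ) = (M - ∑ j, c j * χ j (v, 0)) ^ 2 * N v ^ (-σ) := by ring
      rw [this]
      exact mul_nonneg (sq_nonneg _) (h0 v)
    · simp only [mul_zero, sub_zero, zero_add]
      exact mul_nonneg (sq_nonneg _) (h0 v)
  rw [Summable.tsum_add ((hPE.mul_left _).sub (hcross.mul_left _)) q1,
    Summable.tsum_sub (hPE.mul_left _) (hcross.mul_left _), tsum_mul_left, tsum_mul_left, hcv] at hpos
  have e2 : PE N E σ = ∑' v, (if v ∈ E then N v ^ (-σ) else 0) := rfl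
  rw [← e2] at hpos
  have h4 : 0 ≤ M * (M * PE N E σ - ∑ j, c j ^ 2) := by nlinarith
  have h5 := nonneg_of_mul_nonneg_right h4 hMpos
  linarith

end Pool.Agent.U980.FL
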